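import Pool.Agent.helper47.MSW.SpecA
import Pool.Agent.helper47.MSW.SpecD

/-!
# Project msw, row WLO: few ones
-/

set_option autoImplicit false

namespace Pool.Agent.MSW

open Equiv Finset Function MeasureTheory Pool.Agent.helper48.PP
open Pool.Agent.DSW (Pr Has GP wt)
open scoped ENNReal Classical

noncomputable section

theorem WLO_choose (k : ℕ) : ∀ N m : ℕ, k + m ≤ N →
    (N - k).choose m * N ^ k ≤ N.choose (m + k) * (m + k) ^ k := by
  induction k with
  | zero => intro N m _; simp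
  | succ k ih =>
    intro N m h
    obtain ⟨M, rfl⟩ : ∃ M, N = M + 1 := ⟨N - 1, by omega⟩
    have h1 := ih M m (by omega)
    have e1 : M + 1 - (k + 1) = M - k := by omega
    rw [e1]
    have h2 : (M + 1) * M.choose (m + k) = (M + 1).choose (m + k + 1) * (m + k + 1) :=
      Nat.add_one_mul_choose_eq M (m + k)
    have h3 : (M + 1) * (m + k) ≤ M * (m + k + 1) := by nlinarith
    have h4 : ((M + 1) * (m + k)) ^ k ≤ (M * (m + k + 1)) ^ k := Nat.pow_le_pow_left h3 k
    rw [mul_pow, mul_pow] at h4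
    have h5 : 0 < M ^ k := by
      rcases Nat.eq_zero_or_pos M with h0 | h0
      · have hk : k = 0 := by omega
        rw [hk, pow_zero]
        exact one_pos
      · exact pow_pos h0 k
    refine le_of_mul_le_mul_left ?_ h5
    calc M ^ k * ((M - k).choose m * (M + 1) ^ (k + 1))
        = ((M - k).choose m * M ^ k) * ((M + 1) ^ k * (M + 1)) := by ring
      _ ≤ (M.choose (m + k) * (m + k) ^ k) * ((M + 1) ^ k * (M + 1)) := Nat.mul_le_mul_right _ h1
      _ = ((M + 1) * M.choose (m + k)) * ((M + 1) ^ k * (m + k) ^ k) := by ring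
      _ = ((M + 1).choose (m + k + 1) * (m + k + 1)) * ((M + 1) ^ k * (m + k) ^ k) := by rw [h2]
      _ ≤ ((M + 1).choose (m + k + 1) * (m + k + 1)) * (M ^ k * (m + k + 1) ^ k) :=
        Nat.mul_le_mul_left _ h4
      _ = M ^ k * ((M + 1).choose (m + (k + 1)) * (m + (k + 1)) ^ (k + 1)) := by
        rw [← add_assoc m k 1]
        ring

/-- the sets which contain `T` and have at most `n` elements -/
theorem WLO_T (D T : Finset Pt) (hT : T ⊆ D) (k n : ℕ) (hk : T.card = k) (p : ℝ) (h0 : 0 ≤ p)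
    (h1 : p ≤ 1) :
    (∑ S ∈ D.powerset.filter (fun S => T ⊆ S ∧ S.card ≤ n),
      p ^ S.card * (1 - p) ^ (D.card - S.card)) * (D.card : ℝ) ^ k ≤ (n : ℝ) ^ k := by
  have hq : 0 ≤ 1 - p := by linarith
  set N := D.card with hN
  have hkN : k ≤ N := hk ▸ card_le_card hT
  set g : ℕ → ℝ := fun m => p ^ m * (1 - p) ^ (N - m) with hg
  have hg0 : ∀ m, 0 ≤ g m := fun m => by positivity
  have h2 : ∑ S ∈ D.powerset.filter (fun S => T ⊆ S ∧ S.card ≤ n), g S.card =
      ∑ R ∈ (D \ T).powerset, (if R.card + k ≤ n then g (R.card + k) else 0) := by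
    rw [← filter_filter, sum_filter]
    refine sum_nbij' (fun S => S \ T) (fun R => R ∪ T) ?_ ?_ ?_ ?_ ?_
    · intro S hS
      obtain ⟨hS1, hS2⟩ := mem_filter.1 hS
      exact mem_powerset.2 (sdiff_subset_sdiff (mem_powerset.1 hS1) (Subset.refl _))
    · intro R hR
      have hR1 := mem_powerset.1 hR
      exact mem_filter.2 ⟨mem_powerset.2 (union_subset (hR1.trans sdiff_subset) hT),
        subset_union_right⟩
    · intro S hS
      obtain ⟨hS1, hS2⟩ := mem_filter.1 hS
      exact sdiff_union_of_subset hS2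
    · intro R hR
      have hR1 := mem_powerset.1 hR
      have hd : Disjoint R T := disjoint_of_subset_left hR1 sdiff_disjoint
      exact union_sdiff_cancel_right hd
    · intro S hS
      obtain ⟨hS1, hS2⟩ := mem_filter.1 hS
      have h3 : (S \ T).card + k = S.card := by
        rw [← hk]
        exact card_sdiff_add_card_eq_card hS2
      simp only [h3]
  have hDT : (D \ T).card = N - k := by
    rw [card_sdiff_of_subset hT, hk]
  have h3 : ∑ R ∈ (D \ T).powerset, (if R.card + k ≤ n then g (R.card + k) else 0) =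
      ∑ m ∈ range (N - k + 1), ((N - k).choose m : ℝ) * (if m + k ≤ n then g (m + k) else 0) := by
    have h4 := sum_powerset_apply_card (fun m => if m + k ≤ n then g (m + k) else 0) (x := D \ T)
    rw [hDT] at h4
    rw [h4]
    exact sum_congr rfl fun m _ => by rw [nsmul_eq_mul]
  rw [show (∑ S ∈ D.powerset.filter (fun S => T ⊆ S ∧ S.card ≤ n),
      p ^ S.card * (1 - p) ^ (N - S.card)) =
      ∑ S ∈ D.powerset.filter (fun S => T ⊆ S ∧ S.card ≤ n), g S.card from rfl, h2, h3, sum_mul]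
  have h4 : ∀ m ∈ range (N - k + 1), ((N - k).choose m : ℝ) * (if m + k ≤ n then g (m + k) else 0) *
      (N : ℝ) ^ k ≤ (n : ℝ) ^ k * ((N.choose (m + k) : ℝ) * g (m + k)) := by
    intro m hm
    have hm1 : k + m ≤ N := by
      have := mem_range.1 hm
      omega
    split_ifs with hmn
    · have h5 : (((N - k).choose m : ℕ) : ℝ) * (N : ℝ) ^ k ≤ (N.choose (m + k) : ℝ) * ((m + k : ℕ) : ℝ) ^ k := by
        exact_mod_cast WLO_choose k N m hm1
      have h6 : ((m + k : ℕ) : ℝ) ^ k ≤ (n : ℝ) ^ k :=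
        pow_le_pow_left₀ (Nat.cast_nonneg _) (by exact_mod_cast hmn) k
      calc ((N - k).choose m : ℝ) * g (m + k) * (N : ℝ) ^ k
          = (((N - k).choose m : ℕ) : ℝ) * (N : ℝ) ^ k * g (m + k) := by ring
        _ ≤ (N.choose (m + k) : ℝ) * ((m + k : ℕ) : ℝ) ^ k * g (m + k) :=
          mul_le_mul_of_nonneg_right h5 (hg0 _)
        _ ≤ (N.choose (m + k) : ℝ) * (n : ℝ) ^ k * g (m + k) :=
          mul_le_mul_of_nonneg_right (mul_le_mul_of_nonneg_left h6 (Nat.cast_nonneg _)) (hg0 _)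
        _ = (n : ℝ) ^ k * ((N.choose (m + k) : ℝ) * g (m + k)) := by ring
    · rw [mul_zero, zero_mul]
      have := hg0 (m + k)
      positivity
  refine (sum_le_sum h4).trans ?_
  rw [← mul_sum]
  have h5 : ∑ m ∈ range (N - k + 1), (N.choose (m + k) : ℝ) * g (m + k) ≤ 1 := by
    have h6 : ∑ m ∈ range (N - k + 1), (N.choose (m + k) : ℝ) * g (m + k) =
        ∑ m ∈ (range (N - k + 1)).image (fun m => m + k), (N.choose m : ℝ) * g m := by
      rw [sum_image (fun a _ b _ h => Nat.add_right_cancel h)]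
    have h7 : (range (N - k + 1)).image (fun m => m + k) ⊆ range (N + 1) := by
      intro a ha
      obtain ⟨b, hb, rfl⟩ := mem_image.1 ha
      have := mem_range.1 hb
      exact mem_range.2 (by omega)
    have h8 : ∑ m ∈ range (N + 1), (N.choose m : ℝ) * g m = 1 := by
      have h9 := add_pow p (1 - p) N
      rw [add_sub_cancel, one_pow] at h9
      rw [h9]
      exact sum_congr rfl fun m _ => by rw [hg]; ring
    rw [h6, ← h8]
    exact sum_le_sum_of_subset_of_nonneg h7 fun m _ _ => mul_nonneg (Nat.cast_nonneg _) (hg0 m)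
  calc (n : ℝ) ^ k * ∑ m ∈ range (N - k + 1), (N.choose (m + k) : ℝ) * g (m + k)
      ≤ (n : ℝ) ^ k * 1 := mul_le_mul_of_nonneg_left h5 (by positivity)
    _ = (n : ℝ) ^ k := mul_one _

/-- the number of the possible copies -/
theorem WLO_card (k : ℕ) (σ : Perm (Fin k)) (w : Pt) :
    ((box 0 w).powerset.filter (fun T => ∃ x y : Fin k → ℕ, StrictMono x ∧ StrictMono y ∧
      T = univ.image (fun j => (x j, y (σ j))))).card ≤ w.1.choose k * w.2.choose k := by
  have hfst : ∀ x y : Fin k → ℕ, (univ.image (fun j => (x j, y (σ j)))).image Prod.fst = univ.image x := by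
    intro x y
    rw [image_image]
    rfl
  have hsnd : ∀ x y : Fin k → ℕ, (univ.image (fun j => (x j, y (σ j)))).image Prod.snd = univ.image y := by
    intro x y
    rw [image_image]
    ext a
    simp only [mem_image, mem_univ, true_and, comp_apply]
    constructor
    · rintro ⟨j, rfl⟩
      exact ⟨σ j, rfl⟩
    · rintro ⟨j, rfl⟩
      exact ⟨σ.symm j, by rw [Equiv.apply_symm_apply]⟩
  have h1 : ((powersetCard k (range w.1)) ×ˢ (powersetCard k (range w.2))).card =
      w.1.choose k * w.2.choose k := by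
    rw [card_product, card_powersetCard, card_powersetCard, card_range, card_range]
  rw [← h1]
  refine card_le_card_of_injOn (fun T => (T.image Prod.fst, T.image Prod.snd)) ?_ ?_
  · intro T hT
    obtain ⟨hT1, x, y, hx, hy, rfl⟩ := mem_filter.1 (mem_coe.1 hT)
    have hT2 := mem_powerset.1 hT1
    refine mem_coe.2 (mem_product.2 ⟨?_, ?_⟩)
    · simp only [hfst]
      refine mem_powersetCard.2 ⟨?_, ?_⟩
      · intro a ha
        obtain ⟨j, -, rfl⟩ := mem_image.1 ha
        have h2 := mem_box.1 (hT2 (mem_image.2 ⟨j, mem_univ _, rfl⟩))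
        exact mem_range.2 h2.2.1
      · rw [card_image_of_injective _ hx.injective, card_univ, Fintype.card_fin]
    · simp only [hsnd]
      refine mem_powersetCard.2 ⟨?_, ?_⟩
      · intro a ha
        obtain ⟨j, -, rfl⟩ := mem_image.1 ha
        have h2 := mem_box.1 (hT2 (mem_image.2 ⟨σ.symm j, mem_univ _, rfl⟩))
        rw [Equiv.apply_symm_apply] at h2
        exact mem_range.2 h2.2.2
      · rw [card_image_of_injective _ hy.injective, card_univ, Fintype.card_fin]
  · intro T hT T' hT' hTT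
    obtain ⟨hT1, x, y, hx, hy, rfl⟩ := mem_filter.1 (mem_coe.1 hT)
    obtain ⟨hT1', x', y', hx', hy', rfl⟩ := mem_filter.1 (mem_coe.1 hT')
    simp only [hfst, hsnd, Prod.mk.injEq] at hTT
    have hset : ∀ f g : Fin k → ℕ, univ.image f = univ.image g → Set.range f = Set.range g := by
      intro f g h
      ext a
      have h3 : a ∈ univ.image f ↔ a ∈ univ.image g := by rw [h]
      simpa using h3
    have hxx : x = x' := (StrictMono.range_inj hx hx').1 (hset _ _ hTT.1)
    have hyy : y = y' := (StrictMono.range_inj hy hy').1 (hset _ _ hTT.2)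
    rw [hxx, hyy]

theorem WLO (hMUM : MUM_stmt) : WLO_stmt := by
  intro k σ w n p h0 h1
  have hq : 0 ≤ 1 - p := by linarith
  set D := box 0 w with hD
  set A : Set Om := {ω | HP σ ω 0 w ∧ (tr ω 0 w).card ≤ n} with hA
  have hDep : Dep D A := by
    intro ω ω' H
    have htr : tr ω 0 w = tr ω' 0 w := by
      unfold tr
      exact filter_congr fun c hc => by rw [H c hc]
    have hHP : ∀ ω ω' : Om, (∀ c ∈ D, ω c = ω' c) → HP σ ω 0 w → HP σ ω' 0 w := by
      intro ω ω' H ⟨h2, x, y, hx, hy, h3⟩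
      refine ⟨h2, x, y, hx, hy, fun j => ?_⟩
      obtain ⟨h4, h5, h6⟩ := h3 j
      have h7 : (x j, y (σ j)) ∈ D := mem_box.2 ⟨⟨h5.1, (h3 j).2.2.1 |> fun _ => Nat.zero_le _⟩, h5.2, by
        have := (h3 (σ j)).2.2
        exact this.2⟩
      exact ⟨(H _ h7) ▸ h4, h5, h6⟩
    constructor
    · rintro ⟨h2, h3⟩
      exact ⟨hHP ω ω' H h2, htr ▸ h3⟩
    · rintro ⟨h2, h3⟩
      exact ⟨hHP ω' ω (fun c hc => (H c hc).symm) h2, htr.symm ▸ h3⟩
  obtain ⟨-, hPm⟩ := hMUM p D A h0 h1 hDep
  rw [hPm]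
  refine ENNReal.ofReal_le_ofReal ?_
  set μ : Finset Pt → ℝ := fun S => p ^ S.card * (1 - p) ^ (D.card - S.card) with hμ
  have hμ0 : ∀ S, 0 ≤ μ S := fun S => by positivity
  set 𝒯 : Finset (Finset Pt) := D.powerset.filter (fun T => ∃ x y : Fin k → ℕ, StrictMono x ∧ StrictMono y ∧
      T = univ.image (fun j => (x j, y (σ j)))) with h𝒯
  have hTc : ∀ T ∈ 𝒯, T ⊆ D ∧ T.card = k := by
    intro T hT
    obtain ⟨hT1, x, y, hx, hy, rfl⟩ := mem_filter.1 hT
    refine ⟨mem_powerset.1 hT1, ?_⟩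
    rw [card_image_of_injective, card_univ, Fintype.card_fin]
    intro i j hij
    exact hx.injective (Prod.ext_iff.1 hij).1
  -- the cover
  have hcov : ∀ S ∈ D.powerset.filter (fun S => ind S ∈ A), ∃ T ∈ 𝒯, T ⊆ S ∧ S.card ≤ n := by
    intro S hS
    obtain ⟨hS1, hS2⟩ := mem_filter.1 hS
    have hSD := mem_powerset.1 hS1
    obtain ⟨⟨h2, x, y, hx, hy, h3⟩, h4⟩ := hS2
    have htr : tr (ind S) 0 w = S := by
      unfold tr ind
      ext c
      simp only [mem_filter, decide_eq_true_eq]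
      exact ⟨fun h => h.2, fun h => ⟨hSD h, h⟩⟩
    rw [htr] at h4
    have hsub : univ.image (fun j => (x j, y (σ j))) ⊆ S := by
      intro c hc
      obtain ⟨j, -, rfl⟩ := mem_image.1 hc
      have := (h3 j).1
      unfold ind at this
      exact of_decide_eq_true this
    exact ⟨_, mem_filter.2 ⟨mem_powerset.2 (hsub.trans hSD), x, y, hx, hy, rfl⟩, hsub, h4⟩
  have hPr : Pr D p (fun S => ind S ∈ A) ≤
      ∑ T ∈ 𝒯, ∑ S ∈ D.powerset.filter (fun S => T ⊆ S ∧ S.card ≤ n), μ S := by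
    have h2 : Pr D p (fun S => ind S ∈ A) = ∑ S ∈ D.powerset.filter (fun S => ind S ∈ A), μ S := by
      unfold Pr
      refine sum_congr ?_ fun _ _ => rfl
      ext S
      simp only [mem_filter]
    rw [h2]
    have h3 : ∑ S ∈ D.powerset.filter (fun S => ind S ∈ A), μ S ≤
        ∑ S ∈ D.powerset, ∑ T ∈ 𝒯, (if T ⊆ S ∧ S.card ≤ n then μ S else 0) := by
      have h4 : ∑ S ∈ D.powerset.filter (fun S => ind S ∈ A), μ S ≤
          ∑ S ∈ D.powerset.filter (fun S => ind S ∈ A), ∑ T ∈ 𝒯, (if T ⊆ S ∧ S.card ≤ n then μ S else 0) := by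
        refine sum_le_sum fun S hS => ?_
        obtain ⟨T, hT1, hT2⟩ := hcov S hS
        have h5 := single_le_sum (f := fun T => if T ⊆ S ∧ S.card ≤ n then μ S else 0) (s := 𝒯)
          (fun T _ => by split_ifs; exacts [hμ0 S, le_refl _]) hT1
        have h6 : (if T ⊆ S ∧ S.card ≤ n then μ S else 0) = μ S := if_pos hT2
        exact h6.symm.le.trans h5
      refine h4.trans (sum_le_sum_of_subset_of_nonneg (filter_subset _ _) fun S _ _ => ?_)
      exact sum_nonneg fun T _ => by split_ifs; exacts [hμ0 S, le_refl _]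
    rw [sum_comm] at h3
    refine h3.trans (le_of_eq (sum_congr rfl fun T _ => ?_))
    rw [sum_filter]
  set P : ℝ := Pr D p (fun S => ind S ∈ A) with hP
  have hN : (D.card : ℝ) = w.1 * w.2 := by
    have : D.card = w.1 * w.2 := by
      rw [hD]
      unfold box
      rw [card_product, Nat.card_Ico, Nat.card_Ico]
      simp
    rw [this]
    push_cast
    rfl
  have h𝒯c : (𝒯.card : ℝ) ≤ (w.1.choose k : ℝ) * (w.2.choose k : ℝ) := by
    exact_mod_cast WLO_card k σ w
  have hmul : P * (D.card : ℝ) ^ k ≤ 𝒯.card * (n : ℝ) ^ k := by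
    have h2 : P * (D.card : ℝ) ^ k ≤
        (∑ T ∈ 𝒯, ∑ S ∈ D.powerset.filter (fun S => T ⊆ S ∧ S.card ≤ n), μ S) * (D.card : ℝ) ^ k :=
      mul_le_mul_of_nonneg_right hPr (by positivity)
    rw [sum_mul] at h2
    have h3 : ∑ T ∈ 𝒯, (∑ S ∈ D.powerset.filter (fun S => T ⊆ S ∧ S.card ≤ n), μ S) * (D.card : ℝ) ^ k ≤
        ∑ T ∈ 𝒯, (n : ℝ) ^ k :=
      sum_le_sum fun T hT => WLO_T D T (hTc T hT).1 k n (hTc T hT).2 p h0 h1
    rw [sum_const, nsmul_eq_mul] at h3
    exact h2.trans h3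
  have hkf : (0 : ℝ) < ((k.factorial : ℕ) : ℝ) := by exact_mod_cast k.factorial_pos
  by_cases hz : (D.card : ℝ) ^ k = 0
  · -- no copies
    have hk0 : k ≠ 0 := by
      rintro rfl
      rw [pow_zero] at hz
      exact one_ne_zero hz
    have hD0 : D.card = 0 := by
      have := pow_eq_zero_iff hk0 |>.1 hz
      exact_mod_cast this
    have h𝒯0 : 𝒯 = ∅ := by
      refine filter_eq_empty_iff.2 fun T hT hTx => ?_
      have hT2 := hTc T (mem_filter.2 ⟨hT, hTx⟩)
      have := card_le_card hT2.1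
      omega
    rw [h𝒯0, sum_empty] at hPr
    exact hPr.trans (by positivity)
  · have hpos : 0 < (D.card : ℝ) ^ k := lt_of_le_of_ne (by positivity) (Ne.symm hz)
    have h2 : (w.1.choose k : ℝ) ≤ (w.1 : ℝ) ^ k / ((k.factorial : ℕ) : ℝ) := Nat.choose_le_pow_div k w.1
    have h3 : (w.2.choose k : ℝ) ≤ (w.2 : ℝ) ^ k / ((k.factorial : ℕ) : ℝ) := Nat.choose_le_pow_div k w.2
    have h4 : (𝒯.card : ℝ) ≤ (w.1 : ℝ) ^ k / ((k.factorial : ℕ) : ℝ) * ((w.2 : ℝ) ^ k / ((k.factorial : ℕ) : ℝ)) :=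
      h𝒯c.trans (mul_le_mul h2 h3 (Nat.cast_nonneg _) (by positivity))
    have h5 : P * (D.card : ℝ) ^ k ≤ (n : ℝ) ^ k / ((k.factorial : ℕ) : ℝ) ^ 2 * (D.card : ℝ) ^ k := by
      refine hmul.trans ((mul_le_mul_of_nonneg_right h4 (by positivity)).trans (le_of_eq ?_))
      rw [hN]
      ring
    exact le_of_mul_le_mul_right h5 hpos

end

end Pool.Agent.MSW
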